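import Pool.Agent.J6H83.AK.Base

/-!
# Square factors and the congruences `(1 + X) ^ n = 1 + X ^ n` modulo `n` and `X ^ r - 1`

If `q ^ 2` divides `n` and the congruence holds for `r = m`, `m` prime to `n`, then
`(1 + ξ) ^ q = 1 + ξ ^ q` modulo `q ^ 2` for all `m`-th roots of unity `ξ`, in the ring of all algebraic
integers: raise `(1 + ζ) ^ q = 1 + ζ ^ q + q (...)` to the power `n`. So all the roots of unity of order
at most `y` and less than the least prime factor of `n` are zeros in characteristic `q` of the polynomial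
`((1 + X) ^ q - 1 - X ^ q) / q` of degree `q - 1`.
-/

set_option autoImplicit false

open Polynomial

namespace Pool.Agent.Results.MP_420c7c_nt.SquareFactors

open Pool.Agent.J6H83.AK

/-- Let `n ≥ 2` and let `y ≥ 0` be a real number such that `(1 + X) ^ n` and `1 + X ^ n` are congruent
modulo `n` and `X ^ r - 1` for all `r` with `1 ≤ r ≤ y`. Let `q` be a prime whose square divides `n`.
Then `y ^ 4 < 12 ^ 5 * q ^ 3`, and if `q` is the least prime factor of `n` (for instance if `n` is a power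
of `q`), then even `y ^ 2 < 12 * q`. -/
theorem result (n : ℕ) (hn : 2 ≤ n) (y : ℝ) (hy : 0 ≤ y)
    (h : ∀ r : ℕ, 1 ≤ r → (r : ℝ) ≤ y →
      ((X : (ZMod n)[X]) ^ r - 1) ∣ (1 + X) ^ n - (1 + X ^ n))
    (q : ℕ) (hq : q.Prime) (hqn : q ^ 2 ∣ n) :
    y ^ 4 < 12 ^ 5 * (q : ℝ) ^ 3 ∧ (q = n.minFac → y ^ 2 < 12 * (q : ℝ)) := by
  have hq2 : (2 : ℝ) ≤ q := by exact_mod_cast hq.two_le
  have hqn1 : q ∣ n := (dvd_pow_self q (by norm_num)).trans hqn
  have hn4 : 4 ≤ n := by
    have h1 := Nat.le_of_dvd (by omega) hqn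
    have h2 := hq.two_le
    nlinarith
  have hnp : ¬ n.Prime := by
    intro hp
    have h1 := (Nat.prime_dvd_prime_iff_eq hq hp).1 hqn1
    rw [h1] at hqn
    have h2 := Nat.le_of_dvd (by omega) hqn
    nlinarith
  -- it is enough to show that `y ^ 2 < 12 * q`, or that `l ^ 2 < 12 * q` and `l ≠ q`
  set l := n.minFac with hl
  have hlp : l.Prime := Nat.minFac_prime (by omega)
  suffices H : y ^ 2 < 12 * (q : ℝ) ∨ (l ≠ q ∧ (l : ℝ) ^ 2 < 12 * q) by
    have hmain := small_prime_factors n hn hnp y hy h l hlp (hl ▸ Nat.minFac_dvd n)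
    rcases H with H | ⟨H1, H2⟩
    · refine ⟨?_, fun _ => H⟩
      have h1 : y ^ 4 ≤ (12 * (q : ℝ)) ^ 2 := by
        calc y ^ 4 = (y ^ 2) ^ 2 := by ring
          _ ≤ (12 * (q : ℝ)) ^ 2 := pow_le_pow_left₀ (by positivity) H.le 2
      have h2 : (12 * (q : ℝ)) ^ 2 < 12 ^ 5 * (q : ℝ) ^ 3 := by
        have h3 : (0 : ℝ) < (q : ℝ) ^ 2 := by positivity
        have h4 : (12 * (q : ℝ)) ^ 2 = 144 * (q : ℝ) ^ 2 := by ring
        have h5 : (12 : ℝ) ^ 5 * (q : ℝ) ^ 3 = (248832 * q) * (q : ℝ) ^ 2 := by ring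
        rw [h4, h5]
        exact mul_lt_mul_of_pos_right (by linarith) h3
      linarith
    · refine ⟨?_, fun h0 => absurd h0.symm H1⟩
      have h0 : (0 : ℝ) < l := by exact_mod_cast hlp.pos
      calc y ^ 4 = (y ^ 2) ^ 2 := by ring
        _ < (12 * (l : ℝ) ^ 3) ^ 2 := pow_lt_pow_left₀ hmain (by positivity) (by norm_num)
        _ = 144 * ((l : ℝ) ^ 2) ^ 3 := by ring
        _ ≤ 144 * (12 * (q : ℝ)) ^ 3 := by
          have := pow_le_pow_left₀ (by positivity) H2.le 3
          linarith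
        _ = 12 ^ 5 * (q : ℝ) ^ 3 := by ring
  by_cases hl2 : l = 2
  · left
    have h1 := even_case (by omega) (hl2 ▸ hl ▸ Nat.minFac_dvd n) h
    nlinarith
  have hq2' : q ≠ 2 := by
    rintro rfl
    exact hl2 (le_antisymm (Nat.minFac_le_of_dvd (by norm_num) hqn1) hlp.two_le)
  rcases lt_or_ge y l with hyl | hyl
  · left
    set M := ⌊y⌋₊ with hM
    have h1 : (M : ℝ) ≤ y := Nat.floor_le hy
    have h2 : y < M + 1 := Nat.lt_floor_add_one _
    have h3 : M < l := by
      have : (M : ℝ) < l := by linarith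
      exact_mod_cast this
    have h4 := key_sq (M := M) hq hq2' hqn (by rw [← hl]; exact h3) (fun m hm1 hm2 => h m hm1 (by
      have : (m : ℝ) ≤ M := by exact_mod_cast hm2
      linarith))
    have h5 := sq_le_six_Phi M
    have h6 : (M : ℝ) ^ 2 + 12 ≤ 6 * q := by
      have : M ^ 2 + 12 ≤ 6 * q := by omega
      exact_mod_cast this
    have h7 : (0 : ℝ) ≤ M := Nat.cast_nonneg _
    nlinarith [sq_nonneg ((M : ℝ) - 1)]
  · right
    have hl1 : l - 1 < l := by
      have := hlp.two_le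
      omega
    have h4 := key_sq (M := l - 1) hq hq2' hqn (by rw [← hl]; exact hl1) (fun m hm1 hm2 => h m hm1 (by
      have h5 : (m : ℝ) ≤ l := by exact_mod_cast (show m ≤ l by omega)
      linarith))
    have h5 := sq_le_six_Phi (l - 1)
    have h6 := le_Phi (l - 1)
    have h7 := hlp.two_le
    refine ⟨by omega, ?_⟩
    obtain ⟨k, hk⟩ : ∃ k, l = k + 1 := ⟨l - 1, by omega⟩
    rw [hk, Nat.add_sub_cancel] at h4 h5
    have h8 : k ^ 2 + 12 ≤ 6 * q := by omega
    have h9 : (k : ℝ) ^ 2 + 12 ≤ 6 * q := by exact_mod_cast h8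
    rw [hk]
    push_cast
    nlinarith [sq_nonneg ((k : ℝ) - 1)]

end Pool.Agent.Results.MP_420c7c_nt.SquareFactors
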